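import Mathlib

set_option autoImplicit false

/-!
# Clique-graph periodicity is not preserved by finite triangular covering maps
-/

open SimpleGraph

namespace Pool.Agent.Results.MP_3c8d56_co.CliquePeriod

/-- `Q` is an inclusion-maximal complete set of vertices. -/
def IsMaxClique {V : Type} (G : SimpleGraph V) (Q : Set V) : Prop :=
  Maximal (fun s : Set V => G.IsClique s) Q

/-- The clique graph. -/
def cliqueGraph {V : Type} (G : SimpleGraph V) : SimpleGraph {Q : Set V // IsMaxClique G Q} where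
  Adj P Q := P ≠ Q ∧ ((P : Set V) ∩ (Q : Set V)).Nonempty
  symm := ⟨fun _ _ h => ⟨h.1.symm, by rw [Set.inter_comm]; exact h.2⟩⟩
  loopless := ⟨fun _ h => h.1 rfl⟩

/-- The closed neighbourhood. -/
def closedNbhd {V : Type} (G : SimpleGraph V) (v : V) : Set V := {w | w = v ∨ G.Adj v w}

/-- A triangular covering map: a homomorphism between connected graphs whose restriction to every
closed neighbourhood is an isomorphism onto the closed neighbourhood of the image. -/
def IsTriangularCover {V W : Type} {G' : SimpleGraph W} {G : SimpleGraph V} (p : G' →g G) : Prop :=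
  G'.Connected ∧ G.Connected ∧ ∀ v, Set.BijOn p (closedNbhd G' v) (closedNbhd G (p v)) ∧
    ∀ u ∈ closedNbhd G' v, ∀ w ∈ closedNbhd G' v, (G'.Adj u w ↔ G.Adj (p u) (p w))

/-- Neighbours in the base graph: two 4-cycles `0123`, `4567` and a vertex `8` joined to
`0`, `4`, `5`. -/
def nb : Fin 9 → List (Fin 9)
  | 0 => [1, 3, 8]
  | 1 => [0, 2]
  | 2 => [1, 3]
  | 3 => [2, 0]
  | 4 => [5, 7, 8]
  | 5 => [4, 6, 8]
  | 6 => [5, 7]
  | 7 => [6, 4]
  | 8 => [0, 4, 5]

/-- The base graph. -/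
def G : SimpleGraph (Fin 9) where
  Adj u v := v ∈ nb u
  symm := ⟨by decide⟩
  loopless := ⟨by decide⟩

instance : DecidableRel G.Adj := fun u v => inferInstanceAs (Decidable (v ∈ nb u))

/-- The double cover that unrolls the first 4-cycle. -/
def G' : SimpleGraph (Bool × Fin 9) where
  Adj x y := y.2 ∈ nb x.2 ∧ (x.1 = y.1 ↔ ¬ ((x.2 = 3 ∧ y.2 = 0) ∨ (x.2 = 0 ∧ y.2 = 3)))
  symm := ⟨by decide⟩
  loopless := ⟨by decide⟩

instance : DecidableRel G'.Adj := fun x y =>
  inferInstanceAs (Decidable (y.2 ∈ nb x.2 ∧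
    (x.1 = y.1 ↔ ¬ ((x.2 = 3 ∧ y.2 = 0) ∨ (x.2 = 0 ∧ y.2 = 3)))))

/-- The covering map. -/
def p : G' →g G where
  toFun := Prod.snd
  map_rel' := fun h => h.1

lemma connected_of_parent {V : Type} (H : SimpleGraph V) (f : V → V) (r : V) (n : ℕ)
    (h1 : ∀ v, v = f v ∨ H.Adj v (f v)) (h2 : ∀ v, f^[n] v = r) : H.Connected := by
  have hstep : ∀ v, H.Reachable v (f v) := by
    intro v
    rcases h1 v with h | h
    · rw [← h]
    · exact h.reachable
  have hit : ∀ n v, H.Reachable v (f^[n] v) := by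
    intro n
    induction n with
    | zero => intro v; exact Reachable.refl _
    | succ n ih => intro v; rw [Function.iterate_succ_apply]; exact (hstep v).trans (ih _)
  rw [connected_iff_exists_forall_reachable]
  exact ⟨r, fun v => by
    have := hit n v
    rw [h2] at this
    exact this.symm⟩

/-- Parent function of the base graph. -/
def par : Fin 9 → Fin 9
  | 0 => 0
  | 1 => 0
  | 2 => 1
  | 3 => 2
  | 4 => 8
  | 5 => 8
  | 6 => 5
  | 7 => 4
  | 8 => 0

/-- Parent function of the cover. -/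
def par' : Bool × Fin 9 → Bool × Fin 9
  | (false, v) => (false, par v)
  | (true, 0) => (false, 3)
  | (true, v) => (true, par v)

lemma G_connected : G.Connected :=
  connected_of_parent G par 0 4 (by decide) (by decide)

lemma G'_connected : G'.Connected :=
  connected_of_parent G' par' (false, 0) 8 (by decide) (by decide)

lemma p_cover : IsTriangularCover p := by
  refine ⟨G'_connected, G_connected, fun v => ⟨⟨?_, ?_, ?_⟩, ?_⟩⟩
  · rintro w (rfl | hw)
    · exact Or.inl rfl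
    · exact Or.inr (p.map_adj hw)
  · have key : ∀ v u w : Bool × Fin 9, (u = v ∨ G'.Adj v u) → (w = v ∨ G'.Adj v w) →
        u.2 = w.2 → u = w := by decide
    intro u hu w hw huw
    exact key v u w hu hw huw
  · have key : ∀ (v : Bool × Fin 9) (w : Fin 9), (w = v.2 ∨ G.Adj v.2 w) →
        ∃ u : Bool × Fin 9, (u = v ∨ G'.Adj v u) ∧ u.2 = w := by decide
    intro w hw
    exact key v w hw
  · have key : ∀ v u w : Bool × Fin 9, (u = v ∨ G'.Adj v u) → (w = v ∨ G'.Adj v w) →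
        (G'.Adj u w ↔ G.Adj u.2 w.2) := by decide
    intro u hu w hw
    exact key v u w hu hw

/-- The cliques of the base graph, indexed so that the indexing is an isomorphism. -/
def cl : Fin 9 → Finset (Fin 9)
  | 0 => {4, 5, 8}
  | 1 => {5, 6}
  | 2 => {6, 7}
  | 3 => {7, 4}
  | 4 => {3, 0}
  | 5 => {0, 1}
  | 6 => {1, 2}
  | 7 => {2, 3}
  | 8 => {0, 8}

/-- A complete set that contains all common closed neighbours of two of its vertices is a clique. -/
lemma isMax_of {V : Type} (H : SimpleGraph V) (Q : Set V) (hQ : H.IsClique Q) (u v : V)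
    (hu : u ∈ Q) (hv : v ∈ Q)
    (h : ∀ w, (w = u ∨ H.Adj w u) → (w = v ∨ H.Adj w v) → w ∈ Q) : IsMaxClique H Q := by
  refine ⟨hQ, fun S hS hQS w hw => ?_⟩
  apply h
  · by_cases hwu : w = u
    · exact Or.inl hwu
    · exact Or.inr (hS hw (hQS hu) hwu)
  · by_cases hwv : w = v
    · exact Or.inl hwv
    · exact Or.inr (hS hw (hQS hv) hwv)

lemma isClique_coe {V : Type} [DecidableEq V] (H : SimpleGraph V) (Q : Finset V)
    (h : ∀ u ∈ Q, ∀ v ∈ Q, u ≠ v → H.Adj u v) : H.IsClique (Q : Set V) :=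
  fun u hu v hv huv => h u hu v hv huv

lemma cl_clique (i : Fin 9) : G.IsClique (cl i : Set (Fin 9)) := by
  have key : ∀ i : Fin 9, ∀ u ∈ cl i, ∀ v ∈ cl i, u ≠ v → G.Adj u v := by decide
  exact isClique_coe G (cl i) (key i)

lemma cl_max (i : Fin 9) : IsMaxClique G (cl i : Set (Fin 9)) := by
  have key : ∀ i : Fin 9, ∃ u ∈ cl i, ∃ v ∈ cl i,
      ∀ w, (w = u ∨ G.Adj w u) → (w = v ∨ G.Adj w v) → w ∈ cl i := by decide
  obtain ⟨u, hu, v, hv, h⟩ := key i
  exact isMax_of G _ (cl_clique i) u v hu hv h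

lemma cl_surj (Q : Set (Fin 9)) (hQ : IsMaxClique G Q) : ∃ i, (cl i : Set (Fin 9)) = Q := by
  have hne : Q.Nonempty := by
    rw [Set.nonempty_iff_ne_empty]
    intro he
    have h1 : G.IsClique ({0} : Set (Fin 9)) := by
      intro a ha b hb hab
      rw [Set.mem_singleton_iff] at ha hb
      exact absurd (ha.trans hb.symm) hab
    have := hQ.2 h1 (by rw [he]; exact Set.empty_subset _) (Set.mem_singleton 0)
    rw [he] at this
    exact this
  obtain ⟨u, hu⟩ := hne
  have hnb : ∀ u : Fin 9, ∃ v, G.Adj u v := by decide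
  have hv : ∃ v ∈ Q, G.Adj u v := by
    by_contra hcon
    push Not at hcon
    have hsing : Q = {u} := by
      ext w
      rw [Set.mem_singleton_iff]
      constructor
      · intro hw
        by_contra hwu
        exact hcon w hw (hQ.1 hu hw (Ne.symm hwu))
      · rintro rfl; exact hu
    obtain ⟨v, hv⟩ := hnb u
    have h1 : G.IsClique ({u, v} : Set (Fin 9)) := by
      intro a ha b hb hab
      rcases ha with rfl | ha
      · rcases hb with rfl | hb
        · exact absurd rfl hab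
        · rw [Set.mem_singleton_iff] at hb; rw [hb]; exact hv
      · rw [Set.mem_singleton_iff] at ha
        rcases hb with rfl | hb
        · rw [ha]; exact hv.symm
        · rw [Set.mem_singleton_iff] at hb
          exact absurd (ha.trans hb.symm) hab
    have := hQ.2 h1 (by rw [hsing]; exact Set.singleton_subset_iff.2 (Or.inl rfl))
      (Or.inr rfl : v ∈ ({u, v} : Set (Fin 9)))
    exact hcon v this hv
  obtain ⟨v, hvQ, huv⟩ := hv
  have key : ∀ u v : Fin 9, G.Adj u v → ∃ i : Fin 9,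
      ∀ w, (w = u ∨ G.Adj w u) → (w = v ∨ G.Adj w v) → w ∈ cl i := by decide
  obtain ⟨i, hi⟩ := key u v huv
  refine ⟨i, ?_⟩
  have hsub : Q ⊆ (cl i : Set (Fin 9)) := by
    intro w hw
    apply hi
    · by_cases h : w = u
      · exact Or.inl h
      · exact Or.inr (hQ.1 hw hu h)
    · by_cases h : w = v
      · exact Or.inl h
      · exact Or.inr (hQ.1 hw hvQ h)
  exact Set.Subset.antisymm (hQ.2 (cl_clique i) hsub) hsub

lemma cl_inj : Function.Injective cl := by
  unfold Function.Injective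
  decide

/-- `G` is isomorphic to its clique graph. -/
noncomputable def isoG : G ≃g cliqueGraph G where
  toEquiv := Equiv.ofBijective (fun i => ⟨(cl i : Set (Fin 9)), cl_max i⟩) (by
    constructor
    · intro i j h
      exact cl_inj (Finset.coe_injective (congrArg Subtype.val h))
    · rintro ⟨Q, hQ⟩
      obtain ⟨i, hi⟩ := cl_surj Q hQ
      exact ⟨i, Subtype.ext hi⟩)
  map_rel_iff' := by
    intro i j
    have key : ∀ i j : Fin 9, G.Adj i j ↔ (i ≠ j ∧ ∃ w, w ∈ cl i ∧ w ∈ cl j) := by decide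
    rw [key i j]
    constructor
    · rintro ⟨hne, w, hw1, hw2⟩
      exact ⟨fun h => hne (by rw [h]), w, hw1, hw2⟩
    · rintro ⟨hne, w, hw1, hw2⟩
      exact ⟨fun h => hne (cl_inj (Finset.coe_injective (congrArg Subtype.val h))), w, hw1, hw2⟩

/-- The triangle clique of the cover. -/
def T : Finset (Bool × Fin 9) := {(false, 4), (false, 5), (false, 8)}

lemma mk_max (Q : Finset (Bool × Fin 9)) (h1 : ∀ u ∈ Q, ∀ v ∈ Q, u ≠ v → G'.Adj u v)
    (h2 : ∃ u ∈ Q, ∃ v ∈ Q, ∀ w, (w = u ∨ G'.Adj w u) → (w = v ∨ G'.Adj w v) → w ∈ Q) :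
    IsMaxClique G' (Q : Set (Bool × Fin 9)) := by
  obtain ⟨u, hu, v, hv, h⟩ := h2
  exact isMax_of G' _ (isClique_coe G' Q h1) u v hu hv h

lemma T_max : IsMaxClique G' (T : Set (Bool × Fin 9)) := mk_max T (by decide) (by decide)

/-- The edges leaving `T`. -/
def leaves (v u : Bool × Fin 9) : Bool := decide (v ∈ T ∧ u ∉ T ∧ G'.Adj v u)

/-- A clique other than `T` meeting `T` is one of three disjoint edges. -/
lemma meets_T (A : Set (Bool × Fin 9)) (hA : IsMaxClique G' A) (hne : A ≠ T)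
    (hm : ((T : Set (Bool × Fin 9)) ∩ A).Nonempty) :
    ∃ v ∈ T, ∃ u, u ∉ T ∧ G'.Adj v u ∧ A = {v, u} := by
  obtain ⟨v, hvT, hvA⟩ := hm
  have hu : ∃ u ∈ A, u ∉ T := by
    by_contra hcon
    push Not at hcon
    have hsub : A ⊆ (T : Set (Bool × Fin 9)) := fun u hu => hcon u hu
    exact hne (Set.Subset.antisymm hsub (hA.2 T_max.1 hsub))
  obtain ⟨u, huA, huT⟩ := hu
  have hvu : v ≠ u := by
    rintro rfl; exact huT hvT
  have hadj := hA.1 hvA huA hvu
  refine ⟨v, hvT, u, huT, hadj, ?_⟩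
  have key : ∀ v u w : Bool × Fin 9, (v ∈ T ∧ u ∉ T ∧ G'.Adj v u ∧ (w = v ∨ G'.Adj w v) ∧
      (w = u ∨ G'.Adj w u)) → w = v ∨ w = u := by decide +kernel
  ext w
  constructor
  · intro hw
    refine key v u w ⟨hvT, huT, hadj, ?_, ?_⟩
    · by_cases h : w = v
      · exact Or.inl h
      · exact Or.inr (hA.1 hw hvA h)
    · by_cases h : w = u
      · exact Or.inl h
      · exact Or.inr (hA.1 hw huA h)
  · rintro (rfl | hw)
    · exact hvA
    · rw [Set.mem_singleton_iff] at hw; rw [hw]; exact huA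

/-- The clique graph of the cover is not isomorphic to the cover. -/
lemma not_iso : IsEmpty (cliqueGraph G' ≃g G') := by
  constructor
  intro φ
  have hmk : ∀ (Q : Finset (Bool × Fin 9)), (∀ u ∈ Q, ∀ v ∈ Q, u ≠ v → G'.Adj u v) →
    (∃ u ∈ Q, ∃ v ∈ Q, ∀ w, (w = u ∨ G'.Adj w u) → (w = v ∨ G'.Adj w v) → w ∈ Q) →
    IsMaxClique G' (Q : Set (Bool × Fin 9)) := mk_max
  let t : {Q : Set (Bool × Fin 9) // IsMaxClique G' Q} := ⟨T, T_max⟩
  let y : {Q : Set (Bool × Fin 9) // IsMaxClique G' Q} :=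
    ⟨(({(false, 8), (false, 0)} : Finset (Bool × Fin 9)) : Set (Bool × Fin 9)),
      hmk _ (by decide) (by decide)⟩
  let f1 : {Q : Set (Bool × Fin 9) // IsMaxClique G' Q} :=
    ⟨(({(false, 5), (false, 6)} : Finset (Bool × Fin 9)) : Set (Bool × Fin 9)),
      hmk _ (by decide) (by decide)⟩
  let f2 : {Q : Set (Bool × Fin 9) // IsMaxClique G' Q} :=
    ⟨(({(false, 6), (false, 7)} : Finset (Bool × Fin 9)) : Set (Bool × Fin 9)),
      hmk _ (by decide) (by decide)⟩
  let f3 : {Q : Set (Bool × Fin 9) // IsMaxClique G' Q} :=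
    ⟨(({(false, 7), (false, 4)} : Finset (Bool × Fin 9)) : Set (Bool × Fin 9)),
      hmk _ (by decide) (by decide)⟩
  have hne : ∀ (P Q : Finset (Bool × Fin 9)) (hP : IsMaxClique G' (P : Set (Bool × Fin 9)))
      (hQ : IsMaxClique G' (Q : Set (Bool × Fin 9))), P ≠ Q →
      (⟨P, hP⟩ : {Q : Set (Bool × Fin 9) // IsMaxClique G' Q}) ≠ ⟨Q, hQ⟩ := by
    intro P Q hP hQ h h'
    exact h (Finset.coe_injective (congrArg Subtype.val h'))
  have adjmk : ∀ (P Q : Finset (Bool × Fin 9)) (hP : IsMaxClique G' (P : Set (Bool × Fin 9)))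
      (hQ : IsMaxClique G' (Q : Set (Bool × Fin 9))), P ≠ Q → (∃ w, w ∈ P ∧ w ∈ Q) →
      (cliqueGraph G').Adj ⟨P, hP⟩ ⟨Q, hQ⟩ := by
    intro P Q hP hQ h h'
    obtain ⟨w, hw1, hw2⟩ := h'
    exact ⟨hne P Q hP hQ h, w, hw1, hw2⟩
  have a1 : (cliqueGraph G').Adj t f1 := adjmk _ _ _ _ (by decide) (by decide)
  have a3 : (cliqueGraph G').Adj t f3 := adjmk _ _ _ _ (by decide) (by decide)
  have ay : (cliqueGraph G').Adj t y := adjmk _ _ _ _ (by decide) (by decide)
  have a12 : (cliqueGraph G').Adj f1 f2 := adjmk _ _ _ _ (by decide) (by decide)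
  have a32 : (cliqueGraph G').Adj f3 f2 := adjmk _ _ _ _ (by decide) (by decide)
  have n13 : f1 ≠ f3 := hne _ _ _ _ (by decide)
  have n2t : f2 ≠ t := hne _ _ _ _ (by decide)
  have ny1 : y ≠ f1 := hne _ _ _ _ (by decide)
  have ny3 : y ≠ f3 := hne _ _ _ _ (by decide)
  have key : ∀ t a : Bool × Fin 9, G'.Adj t a → ∀ b, G'.Adj t b → a ≠ b → ∀ c, G'.Adj a c →
      G'.Adj b c → c ≠ t → ∀ y, G'.Adj t y → y ≠ a → y ≠ b →
      ∃ u, G'.Adj t u ∧ ∃ v, G'.Adj t v ∧ G'.Adj u v := by decide +kernel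
  obtain ⟨u, hu, v, hv, huv⟩ := key (φ t) (φ f1) (φ.map_adj_iff.2 a1) (φ f3)
    (φ.map_adj_iff.2 a3) (φ.injective.ne n13) (φ f2) (φ.map_adj_iff.2 a12)
    (φ.map_adj_iff.2 a32) (φ.injective.ne n2t) (φ y) (φ.map_adj_iff.2 ay)
    (φ.injective.ne ny1) (φ.injective.ne ny3)
  obtain ⟨U, rfl⟩ := φ.surjective u
  obtain ⟨W, rfl⟩ := φ.surjective v
  rw [φ.map_adj_iff] at hu hv huv
  obtain ⟨v1, hv1, u1, hu1, hadj1, e1⟩ := meets_T U.1 U.2
    (fun h => hu.1 (Subtype.ext h.symm)) hu.2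
  obtain ⟨v2, hv2, u2, hu2, hadj2, e2⟩ := meets_T W.1 W.2
    (fun h => hv.1 (Subtype.ext h.symm)) hv.2
  obtain ⟨w, hw1, hw2⟩ := huv.2
  rw [e1] at hw1
  rw [e2] at hw2
  have key2 : ∀ v1 u1 : Bool × Fin 9, leaves v1 u1 = true →
      ∀ v2 u2 : Bool × Fin 9, leaves v2 u2 = true →
      ((v1 = v2 ∨ v1 = u2) ∨ (u1 = v2 ∨ u1 = u2)) → (v1 = v2 ∧ u1 = u2) := by decide +kernel
  have hw12 : (v1 = v2 ∨ v1 = u2) ∨ (u1 = v2 ∨ u1 = u2) := by
    rcases hw1 with rfl | hw1
    · exact Or.inl hw2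
    · rw [Set.mem_singleton_iff] at hw1
      subst hw1
      exact Or.inr hw2
  have h12 := key2 v1 u1 (by simp [leaves, hv1, hu1, hadj1]) v2 u2
    (by simp [leaves, hv2, hu2, hadj2]) hw12
  apply huv.1
  apply Subtype.ext
  rw [e1, e2, h12.1, h12.2]

/-- There is a triangular covering map between finite connected graphs `G'` and `G` such that
`kG ≅ G` but `kG'` is not isomorphic to `G'`. -/
theorem result : ∃ (V W : Type) (_ : Finite V) (_ : Finite W) (G : SimpleGraph V)
    (G' : SimpleGraph W) (p : G' →g G), IsTriangularCover p ∧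
      Nonempty (cliqueGraph G ≃g G) ∧ IsEmpty (cliqueGraph G' ≃g G') :=
  ⟨_, _, inferInstance, inferInstance, G, G', p, p_cover, ⟨isoG.symm⟩, not_iso⟩

end Pool.Agent.Results.MP_3c8d56_co.CliquePeriod
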